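import Pool.Agent.H82.RD.Targets
import Pool.Agent.H60.PS.CLS

/-!
# A weak height bound (THB)
-/

set_option autoImplicit false

open MvPolynomial Pool.Agent.H82.RD Pool.Agent.H38.RB Pool.Agent.H38.PS

namespace Pool.Agent.H96.RD

open Pool.Agent.H60.PS (prod_factorization)

/-- the three indices, the first one with the largest entry -/
theorem exists_abc (x : Fin 3 → ℤ) (hx : Adm x) : ∃ a b c : Fin 3, a ≠ b ∧ a ≠ c ∧ b ≠ c ∧
    x a + x b + x c = 0 ∧ (x a).natAbs = ht x ∧ (x b).natAbs ≤ ht x ∧ (x c).natAbs ≤ ht x := by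
  have h := hx.2.2
  have h0 : (x 0).natAbs ≤ ht x := le_max_left _ _
  have h1 : (x 1).natAbs ≤ ht x := (le_max_left _ _).trans (le_max_right _ _)
  have h2 : (x 2).natAbs ≤ ht x := (le_max_right _ _).trans (le_max_right _ _)
  have h3 : ht x = (x 0).natAbs ∨ ht x = (x 1).natAbs ∨ ht x = (x 2).natAbs := by
    unfold ht
    omega
  rcases h3 with h3 | h3 | h3
  · exact ⟨0, 1, 2, by decide, by decide, by decide, by linarith, h3.symm, h1, h2⟩
  · exact ⟨1, 0, 2, by decide, by decide, by decide, by linarith, h3.symm, h0, h2⟩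
  · exact ⟨2, 0, 1, by decide, by decide, by decide, by linarith, h3.symm, h0, h1⟩

theorem factorization_le_log {m p H : ℕ} (hm : m ≠ 0) (hmH : m ≤ H) (hp : p.Prime) :
    (m.factorization p : ℝ) ≤ 2 * Real.log H := by
  have h1 : p ^ m.factorization p ≤ H := (Nat.ordProj_le p hm).trans hmH
  have h2 : ((p : ℝ)) ^ m.factorization p ≤ H := by exact_mod_cast h1
  have hp1 : (2 : ℝ) ≤ p := by exact_mod_cast hp.two_le
  have hp0 : (0 : ℝ) < p := by linarith
  have h3 := Real.log_le_log (by positivity) h2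
  rw [Real.log_pow] at h3
  have h4 : Real.log 2 ≤ Real.log p := Real.log_le_log (by norm_num) hp1
  have h5 : (1 / 2 : ℝ) ≤ Real.log p := by
    have := Real.log_two_gt_d9
    linarith
  have h6 : (0 : ℝ) ≤ (m.factorization p : ℝ) := Nat.cast_nonneg _
  nlinarith

theorem natAbs_sq_modEq {a b c : ℤ} {n : ℕ} (h : a + b + c = 0) (hn : n ∣ a.natAbs) :
    b.natAbs ^ 2 ≡ c.natAbs ^ 2 [MOD n] := by
  rw [← Int.natCast_modEq_iff]
  push_cast
  rw [sq_abs, sq_abs]
  have h1 : (n : ℤ) ∣ a := Int.natCast_dvd.2 hn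
  refine Int.ModEq.symm ?_
  rw [Int.modEq_iff_dvd]
  obtain ⟨k, hk⟩ := h1
  refine ⟨-k * (b - c), ?_⟩
  have h2 : b + c = -(n * k) := by rw [← hk]; linarith
  have h3 : b ^ 2 - c ^ 2 = (b + c) * (b - c) := by ring
  rw [h3, h2]
  ring

theorem natAbs_dvd_pr (x : Fin 3 → ℤ) (i : Fin 3) : (x i).natAbs ∣ pr x := by
  unfold pr
  rw [Int.natAbs_mul, Int.natAbs_mul]
  fin_cases i
  · exact Dvd.intro ((x 1).natAbs * (x 2).natAbs) (by simp only [Fin.zero_eta]; ring)
  · exact Dvd.intro ((x 0).natAbs * (x 2).natAbs) (by simp only [Fin.mk_one]; ring)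
  · exact Dvd.intro_left _ rfl

theorem pr_ne_zero {x : Fin 3 → ℤ} (hx : Adm x) : pr x ≠ 0 := by
  unfold pr
  rw [Int.natAbs_ne_zero]
  exact mul_ne_zero (mul_ne_zero (hx.1 0) (hx.1 1)) (hx.1 2)

theorem primeFactors_subset {x : Fin 3 → ℤ} (hx : Adm x) (i : Fin 3) :
    (x i).natAbs.primeFactors ⊆ (pr x).primeFactors :=
  Nat.primeFactors_mono (natAbs_dvd_pr x i) (pr_ne_zero hx)

theorem not_dvd_both {x : Fin 3 → ℤ} (hx : Adm x) {i j : Fin 3} (hij : i ≠ j) {p : ℕ}
    (hp : p.Prime) (h1 : p ∣ (x i).natAbs) (h2 : p ∣ (x j).natAbs) : False := by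
  have h3 : (x i).natAbs.Coprime (x j).natAbs :=
    Int.isCoprime_iff_gcd_eq_one.1 (hx.2.1 i j hij)
  exact hp.one_lt.ne' (Nat.eq_one_of_dvd_coprimes h3 h1 h2)

theorem pf_THB (hHAB : T_HAB) (hTQC : T_TQC) : T_THB := by
  classical
  obtain ⟨X₀, hX₀, hHAB⟩ := hHAB
  refine ⟨X₀, by exact_mod_cast hX₀, fun X x hX hx hpd => ?_⟩
  have hX2 : (2 : ℝ) ≤ X := le_trans (by exact_mod_cast hX₀) hX
  have hXn : X₀ ≤ ⌊X⌋₊ := Nat.le_floor hX
  have hpdn : pd (pr x).primeFactors ≤ ⌊X⌋₊ := Nat.le_floor hpd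
  have hXnX : (⌊X⌋₊ : ℝ) ≤ X := Nat.floor_le (by linarith)
  obtain ⟨a, b, c, hab, hac, hbc, hsum, hxa, hxb, hxc⟩ := exists_abc x hx
  obtain ⟨Xn, hXnd⟩ : ∃ Xn : ℕ, Xn = ⌊X⌋₊ := ⟨_, rfl⟩
  rw [← hXnd] at hXn hpdn hXnX
  have hXn2 : 2 ≤ Xn := hX₀.trans hXn
  have hXnR : (2 : ℝ) ≤ Xn := by exact_mod_cast hXn2
  have hpow : (Xn : ℝ) ^ 20 ≤ X ^ 20 := pow_le_pow_left₀ (by linarith) hXnX 20
  rcases le_or_gt (ht x) 2 with hH | hH
  · rcases Nat.eq_zero_or_pos (ht x) with h0 | h0
    · rw [h0]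
      simp only [Nat.cast_zero, Real.log_zero]
      positivity
    · have h1 : Real.log (ht x) ≤ Real.log 2 :=
        Real.log_le_log (by exact_mod_cast h0) (by exact_mod_cast hH)
      have h2 := Real.log_two_lt_d9
      have h3 : (1 : ℝ) ≤ X ^ 20 := one_le_pow₀ (by linarith)
      linarith
  · have hHR : (2 : ℝ) < ht x := by exact_mod_cast hH
    have hlog : 0 < Real.log (ht x) := Real.log_pos (by linarith)
    have hxa0 : (x a).natAbs ≠ 0 := Int.natAbs_ne_zero.2 (hx.1 a)
    have hxb0 : (x b).natAbs ≠ 0 := Int.natAbs_ne_zero.2 (hx.1 b)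
    have hxc0 : (x c).natAbs ≠ 0 := Int.natAbs_ne_zero.2 (hx.1 c)
    obtain ⟨I, hI⟩ : ∃ I : Finset ℕ, I = (x b).natAbs.primeFactors ∪ (x c).natAbs.primeFactors :=
      ⟨_, rfl⟩
    have hIb : (x b).natAbs.primeFactors ⊆ I := by rw [hI]; exact Finset.subset_union_left
    have hIc : (x c).natAbs.primeFactors ⊆ I := by rw [hI]; exact Finset.subset_union_right
    have hIprime : ∀ p ∈ I, p.Prime := by
      intro p hp
      rw [hI, Finset.mem_union] at hp
      rcases hp with hp | hp
      · exact Nat.prime_of_mem_primeFactors hp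
      · exact Nat.prime_of_mem_primeFactors hp
    have hImem : ∀ p ∈ I, p ∣ (x b).natAbs ∨ p ∣ (x c).natAbs := by
      intro p hp
      rw [hI, Finset.mem_union] at hp
      rcases hp with hp | hp
      · exact Or.inl (Nat.dvd_of_mem_primeFactors hp)
      · exact Or.inr (Nat.dvd_of_mem_primeFactors hp)
    have hIne : I.card ≠ 0 := by
      intro h0
      rw [Finset.card_eq_zero] at h0
      rw [h0, Finset.subset_empty, Nat.primeFactors_eq_empty] at hIb hIc
      have h1 : (x b).natAbs = 1 := hIb.resolve_left hxb0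
      have h2 : (x c).natAbs = 1 := hIc.resolve_left hxc0
      omega
    obtain ⟨r, hr⟩ : ∃ r, I.card = r + 1 := Nat.exists_eq_succ_of_ne_zero hIne
    let ee : Fin (r + 1) ≃ I := (I.equivFinOfCardEq hr).symm
    have hprod : ∀ f : ℕ → ℕ, ∏ i, f (ee i : ℕ) = ∏ p ∈ I, f p := by
      intro f
      rw [Equiv.prod_comp ee (fun p : I => f p), Finset.prod_coe_sort I f]
    -- the prime `q`
    have hS : ∀ l ∈ (pr x).primeFactors, l.Prime := fun l hl => Nat.prime_of_mem_primeFactors hl
    have htp : tp (pr x).primeFactors (x a).natAbs = (x a).natAbs := by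
      unfold tp
      exact (prod_factorization hxa0 (primeFactors_subset hx a)).symm
    obtain ⟨q, hqS, hqa, hqlog⟩ := hTQC x a (pr x).primeFactors Xn (Real.log (ht x)) hx hS
      (by exact_mod_cast hpdn) hlog (by rw [htp, hxa])
    have hqp := hS q hqS
    have hpos : ∀ p ∈ (pr x).primeFactors, 1 ≤ p := fun p hp => (hS p hp).one_le
    have hqX : q ≤ Xn := by
      refine le_trans (Nat.le_of_dvd ?_ (Finset.dvd_prod_of_mem _ hqS)) hpdn
      exact Finset.prod_pos fun p hp => (hS p hp).pos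
    have hIS : I ⊆ (pr x).primeFactors := by
      rw [hI]
      exact Finset.union_subset (primeFactors_subset hx b) (primeFactors_subset hx c)
    have hkey := hHAB Xn q ((x a).natAbs.factorization q) r ⌊2 * Real.log (ht x)⌋₊
      (fun i => (ee i : ℕ)) (fun i => (x c).natAbs.factorization (ee i : ℕ))
      (fun i => (x b).natAbs.factorization (ee i : ℕ)) hXn hqp hqX
      (fun i j hij => ee.injective (Subtype.ext hij))
      (fun i => ⟨hIprime _ (ee i).2, fun h0 => by
        have h1 := hImem _ (ee i).2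
        have h2 : ((ee i : I) : ℕ) = q := h0
        rw [h2] at h1
        rcases h1 with h1 | h1
        · exact not_dvd_both hx hab hqp hqa h1
        · exact not_dvd_both hx hac hqp hqa h1⟩)
      (by
        rw [hprod (fun p => p)]
        exact (Finset.prod_le_prod_of_subset_of_one_le' hIS fun p hp _ => hpos p hp).trans hpdn)
      (fun i => by
        have hpi := hIprime _ (ee i).2
        have h1 := hImem _ (ee i).2
        refine ⟨?_, ?_, ?_⟩
        · intro h0
          have h3 : (x c).natAbs.factorization (ee i : ℕ) =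
            (x b).natAbs.factorization (ee i : ℕ) := h0
          rcases h1 with h1 | h1
          · have h2 : 0 < (x b).natAbs.factorization (ee i : ℕ) :=
              hpi.factorization_pos_of_dvd hxb0 h1
            rw [← h3] at h2
            exact not_dvd_both hx hbc hpi h1 (Nat.dvd_of_factorization_pos h2.ne')
          · have h2 : 0 < (x c).natAbs.factorization (ee i : ℕ) :=
              hpi.factorization_pos_of_dvd hxc0 h1
            rw [h3] at h2
            exact not_dvd_both hx hbc hpi (Nat.dvd_of_factorization_pos h2.ne') h1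
        · exact Nat.le_floor (factorization_le_log hxc0 hxc hpi)
        · exact Nat.le_floor (factorization_le_log hxb0 hxb hpi))
      (by
        rw [hprod (fun p => p ^ (x b).natAbs.factorization p),
          hprod (fun p => p ^ (x c).natAbs.factorization p),
          ← prod_factorization hxb0 hIb, ← prod_factorization hxc0 hIc]
        exact natAbs_sq_modEq hsum (Nat.ordProj_dvd _ _))
      (by
        have h1 : (⌊2 * Real.log (ht x)⌋₊ : ℝ) ≤ 2 * Real.log (ht x) :=
          Nat.floor_le (by linarith)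
        have h2 : Real.log Xn ≤ Xn := (Real.log_le_sub_one_of_pos (by linarith)).trans (by linarith)
        have h3 : (0 : ℝ) ≤ ((x a).natAbs.factorization q : ℝ) := Nat.cast_nonneg _
        have h4 : (⌊2 * Real.log (ht x)⌋₊ : ℝ) ≤ 4 * Xn * ((x a).natAbs.factorization q : ℝ) := by
          nlinarith
        exact_mod_cast h4)
    have h5 : 2 * Real.log (ht x) < ⌊2 * Real.log (ht x)⌋₊ + 1 := Nat.lt_floor_add_one _
    have h6 : ((⌊2 * Real.log (ht x)⌋₊ : ℝ)) + 1 ≤ (Xn : ℝ) ^ 20 := by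
      exact_mod_cast hkey
    linarith

end Pool.Agent.H96.RD
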