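import Pool.Agent.H82.RD.Targets
import Pool.Agent.H99.RD.KPI

/-!
# Minimal primes over a hypersurface section (ZPI)
-/

set_option autoImplicit false

open MvPolynomial Pool.Agent.H82.RD

namespace Pool.Agent.H96.RD

theorem pf_ZPI : T_ZPI := by
  intro k _ u q p f hq hf hp
  have hpp : p.IsPrime := hp.1.1
  have h := Pool.Agent.H99.RD.kpi (s := Option (Fin u)) q f p hp
  have hfinp : Algebra.trdeg k (PR k u ⧸ p) < Cardinal.aleph0 := trdeg_lt_aleph0_of_finiteType
  have hfinp1 : Algebra.trdeg k (PR k u ⧸ p) + 1 < Cardinal.aleph0 :=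
    Cardinal.add_lt_aleph0 hfinp Cardinal.one_lt_aleph0
  have h2 := Cardinal.toNat_le_toNat h hfinp1
  rw [Cardinal.toNat_add hfinp Cardinal.one_lt_aleph0, Cardinal.one_toNat] at h2
  exact h2

end Pool.Agent.H96.RD
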